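import Pool.Agent.H70.LZ.Stm

/-!
# KL, block (A), part QUA: the Lie structure of a subgroup of `1 + F 1`
-/

set_option autoImplicit false

open Finset
open scoped commutatorElement

namespace H68.LZ

open H2.KL H70.LZ

/-! ### the Lie ring of a submodule closed under `cm` -/

/-- the Lie ring structure -/
@[reducible] def lieM {q : ℕ} {S : Type} [Ring S] [Algebra (ZMod q) S] (m : Submodule (ZMod q) S)
    (hm : ∀ a ∈ m, ∀ b ∈ m, cm a b ∈ m) : LieRing m :=
  { (inferInstance : AddCommGroup m) with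
    bracket := fun x y => ⟨cm (x : S) (y : S), hm x x.2 y y.2⟩
    add_lie := by
      intro x y z
      apply Subtype.ext
      change cm ((x : S) + y) z = cm (x : S) z + cm (y : S) z
      unfold cm
      noncomm_ring
    lie_add := by
      intro x y z
      apply Subtype.ext
      change cm (x : S) ((y : S) + z) = cm (x : S) y + cm (x : S) z
      unfold cm
      noncomm_ring
    lie_self := by
      intro x
      apply Subtype.ext
      change cm (x : S) x = 0
      unfold cm
      noncomm_ring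
    leibniz_lie := by
      intro x y z
      apply Subtype.ext
      change cm (x : S) (cm (y : S) z) = cm (cm (x : S) y) z + cm (y : S) (cm (x : S) z)
      unfold cm
      noncomm_ring }

section
variable {q c : ℕ} {S : Type} [Ring S] [Algebra (ZMod q) S] {A : Fil (ZMod q) S c}

theorem fanti (A : Fil (ZMod q) S c) {i j : ℕ} (h : i ≤ j) : A.F j ≤ A.F i := by
  induction j, h using Nat.le_induction with
  | base => exact le_rfl
  | succ j _ ih => exact (A.anti j).trans ih

theorem cm_mem (A : Fil (ZMod q) S c) {i j : ℕ} {x y : S} (hx : x ∈ A.F i) (hy : y ∈ A.F j) :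
    cm x y ∈ A.F (i + j) := by
  unfold cm
  refine sub_mem (A.mul i j x y hx hy) ?_
  rw [add_comm]
  exact A.mul j i y x hy hx

theorem adp_mem (A : Fil (ZMod q) S c) {x y : S} (hx : x ∈ A.F 1) (hy : y ∈ A.F 1) (i : ℕ) :
    adp x i y ∈ A.F (i + 1) := by
  induction i with
  | zero => exact hy
  | succ i ih =>
    unfold adp at *
    rw [Function.iterate_succ', Function.comp_apply]
    have h1 := cm_mem A hx ih
    rwa [add_comm 1 (i + 1)] at h1

end

theorem t_QUA (hEXB : S_EXB) (hEXA : S_EXA) (hADE : S_ADE) (hBCH : S_BCH) (hNIL : S_NIL)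
    (hCLO : S_CLO) (hIDE : S_IDE) : S_QUA := by
  intro q c S _ _ _ A H hH
  classical
  obtain ⟨m, hmem, hcm⟩ := hCLO q c S A H hH
  obtain ⟨hex1, hex2, hex3⟩ := hEXB (ZMod q) S c A
  obtain ⟨hexz, hexa⟩ := hEXA (ZMod q) S c A
  have hmF : ∀ x ∈ m, x ∈ A.F 1 := fun x hx => ((hmem x).mp hx).1
  have hinj : ∀ x ∈ A.F 1, ∀ y ∈ A.F 1, ex (ZMod q) c x = ex (ZMod q) c y → x = y := by
    intro x hx y hy h
    have h1 := (hex2 (c + 1) (by omega) x hx y hy).mpr (by rw [h, sub_self]; exact zero_mem _)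
    rw [A.bot, Submodule.mem_bot] at h1
    exact sub_eq_zero.mp h1
  letI iL : LieRing m := lieM m hcm
  have hbr : ∀ x y : m, ((⁅x, y⁆ : m) : S) = cm (x : S) y := fun x y => rfl
  -- the exponential
  have hch : ∀ x : m, ∃ h : H, ((h : Sˣ) : S) = ex (ZMod q) c (x : S) := by
    intro x
    obtain ⟨_, h, hh, he⟩ := (hmem x).mp x.2
    exact ⟨⟨h, hh⟩, he⟩
  choose f hf using hch
  have hfbij : Function.Bijective f := by
    constructor
    · intro x y h
      apply Subtype.ext
      apply hinj _ (hmF _ x.2) _ (hmF _ y.2)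
      rw [← hf, ← hf, h]
    · intro h
      obtain ⟨x, hx, hxe⟩ := hex3 ((h : Sˣ) : S) (hH _ h.2)
      have hxm : x ∈ m := (hmem x).mpr ⟨hx, h, h.2, hxe.symm⟩
      refine ⟨⟨x, hxm⟩, ?_⟩
      apply Subtype.ext
      apply Units.ext
      rw [hf]
      exact hxe
  let e : m ≃ H := Equiv.ofBijective f hfbij
  have he : ∀ x : m, (((e x : H) : Sˣ) : S) = ex (ZMod q) c (x : S) := hf
  have eext : ∀ h h' : H, ((h : Sˣ) : S) = ((h' : Sˣ) : S) → h = h' :=
    fun h h' hh => Subtype.ext (Units.ext hh)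
  have he_neg : ∀ x : m, e (-x) = (e x)⁻¹ := by
    intro x
    apply eq_inv_of_mul_eq_one_left
    apply eext
    have h1 : (((e (-x) * e x : H) : Sˣ) : S) = (((e (-x) : H) : Sˣ) : S) * (((e x : H) : Sˣ) : S) := rfl
    rw [h1, he, he]
    have h2 : ((-x : m) : S) = -(x : S) := rfl
    rw [h2, ← hexa _ (neg_mem (hmF _ x.2)) _ (hmF _ x.2) ((Commute.refl (x : S)).neg_left),
      neg_add_cancel, hexz]
    rfl
  have hinvv : ∀ x : m, ((((e x)⁻¹ : H) : Sˣ) : S) = ex (ZMod q) c (-(x : S)) := by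
    intro x
    rw [← he_neg, he]
    rfl
  -- conjugation
  have hF0 : ∀ h : H, ((h : Sˣ) : S) ∈ A.F 0 := by
    intro h
    have h1 := A.anti 0 (hH _ h.2)
    have h2 := add_mem h1 A.one
    rwa [sub_add_cancel] at h2
  have hconjF : ∀ (h : H) (x : S), x ∈ A.F 1 →
      ((h : Sˣ) : S) * x * (((h⁻¹ : H) : Sˣ) : S) ∈ A.F 1 := by
    intro h x hx
    have h1 := A.mul 0 1 _ _ (hF0 h) hx
    have h2 := A.mul (0 + 1) 0 _ _ h1 (hF0 h⁻¹)
    exact h2
  have hconje : ∀ (h : H) (x : S), x ∈ A.F 1 →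
      ex (ZMod q) c (((h : Sˣ) : S) * x * (((h⁻¹ : H) : Sˣ) : S)) =
        ((h : Sˣ) : S) * ex (ZMod q) c x * (((h⁻¹ : H) : Sˣ) : S) := by
    intro h x hx
    obtain ⟨y, rfl⟩ := e.surjective h
    have h1 := (hADE (ZMod q) S c A (y : S) (hmF _ y.2) x hx).2
    rw [hinvv, he]
    exact h1.symm
  have hconjm : ∀ (h : H) (x : S), x ∈ m → ((h : Sˣ) : S) * x * (((h⁻¹ : H) : Sˣ) : S) ∈ m := by
    intro h x hx
    rw [hmem]
    refine ⟨hconjF h x (hmF x hx), ((h * e ⟨x, hx⟩ * h⁻¹ : H) : Sˣ), (h * e ⟨x, hx⟩ * h⁻¹ : H).2, ?_⟩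
    rw [hconje h x (hmF x hx)]
    have h1 : (((h * e ⟨x, hx⟩ * h⁻¹ : H) : Sˣ) : S) =
        ((h : Sˣ) : S) * (((e ⟨x, hx⟩ : H) : Sˣ) : S) * (((h⁻¹ : H) : Sˣ) : S) := rfl
    rw [h1, he]
  let Ad : H → (m →+ m) := fun h =>
    { toFun := fun x => ⟨((h : Sˣ) : S) * (x : S) * (((h⁻¹ : H) : Sˣ) : S), hconjm h x x.2⟩
      map_zero' := by
        apply Subtype.ext
        change ((h : Sˣ) : S) * (0 : S) * (((h⁻¹ : H) : Sˣ) : S) = 0
        rw [mul_zero, zero_mul]
      map_add' := by
        intro x y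
        apply Subtype.ext
        change ((h : Sˣ) : S) * ((x : S) + y) * (((h⁻¹ : H) : Sˣ) : S) =
          ((h : Sˣ) : S) * (x : S) * (((h⁻¹ : H) : Sˣ) : S) +
          ((h : Sˣ) : S) * (y : S) * (((h⁻¹ : H) : Sˣ) : S)
        rw [mul_add, add_mul] }
  have hAd : ∀ (h : H) (x : m), ((Ad h x : m) : S) =
      ((h : Sˣ) : S) * (x : S) * (((h⁻¹ : H) : Sˣ) : S) := fun h x => rfl
  -- submodules of `S` from additive subgroups of `m`
  let W : AddSubgroup m → Submodule (ZMod q) S := fun h =>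
    AddSubgroup.toZModSubmodule q (h.map m.subtype.toAddMonoidHom)
  have hW : ∀ (h : AddSubgroup m) (s : S), s ∈ W h ↔ ∃ x ∈ h, (x : S) = s := by
    intro h s
    change s ∈ (h.map m.subtype.toAddMonoidHom) ↔ _
    rw [AddSubgroup.mem_map]
    rfl
  have hmul : ∀ h : AddSubgroup m, IsSub h → ∀ x ∈ h, ∀ y ∈ h,
      e.symm (e x * e y) - x - y ∈ der h := by
    intro h hh x hx y hy
    obtain ⟨z, hz, hz1, hz2⟩ := hBCH (ZMod q) S c A (W h) (by
      intro s hs
      obtain ⟨x, _, rfl⟩ := (hW h s).mp hs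
      exact hmF _ x.2) (by
      intro a ha b hb
      obtain ⟨a', ha', rfl⟩ := (hW h a).mp ha
      obtain ⟨b', hb', rfl⟩ := (hW h b).mp hb
      exact (hW h _).mpr ⟨⁅a', b'⁆, hh a' ha' b' hb', rfl⟩)
      (x : S) ((hW h _).mpr ⟨x, hx, rfl⟩) (y : S) ((hW h _).mpr ⟨y, hy, rfl⟩)
    obtain ⟨z', hz', rfl⟩ := (hW h z).mp hz
    have h1 : e.symm (e x * e y) = z' := by
      rw [Equiv.symm_apply_eq]
      apply eext
      rw [he, hz1]
      have h2 : (((e x * e y : H) : Sˣ) : S) = (((e x : H) : Sˣ) : S) * (((e y : H) : Sˣ) : S) := rfl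
      rw [h2, he, he]
    rw [h1]
    have h3 : cmSpan (ZMod q) (W h) ≤ W (der h) := by
      unfold cmSpan
      rw [Submodule.span_le]
      rintro w ⟨a, ha, b, hb, rfl⟩
      obtain ⟨a', ha', rfl⟩ := (hW h a).mp ha
      obtain ⟨b', hb', rfl⟩ := (hW h b).mp hb
      exact (hW (der h) _).mpr ⟨⁅a', b'⁆, AddSubgroup.subset_closure ⟨a', ha', b', hb', rfl⟩, rfl⟩
    obtain ⟨u, hu, hue⟩ := (hW (der h) _).mp (h3 hz2)
    have h4 : u = z' - x - y := Subtype.ext hue
    rw [← h4]
    exact hu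
  -- the ranges
  have hrange : ∀ x : m, Set.range (fun w : m => ⁅x, w⁆) = Set.range (fun w => Ad (e x) w - w) := by
    intro x
    let N : m →ₗ[ZMod q] m :=
      { toFun := fun w => ⁅x, w⁆
        map_add' := fun a b => lie_add x a b
        map_smul' := by
          intro r a
          apply Subtype.ext
          change cm (x : S) (r • (a : S)) = r • cm (x : S) (a : S)
          unfold cm
          rw [mul_smul_comm, smul_mul_assoc, smul_sub] }
    have hNi : ∀ (i : ℕ) (w : m), (((N ^ i) w : m) : S) = adp (x : S) i (w : S) := by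
      intro i
      induction i with
      | zero => intro w; rfl
      | succ i ih =>
        intro w
        rw [pow_succ', Module.End.mul_apply]
        change cm (x : S) (((N ^ i) w : m) : S) = _
        rw [ih w]
        unfold adp
        rw [Function.iterate_succ', Function.comp_apply]
    have hNc : N ^ c = 0 := by
      apply LinearMap.ext
      intro w
      apply Subtype.ext
      rw [hNi]
      have h1 := adp_mem A (hmF _ x.2) (hmF _ w.2) c
      rw [A.bot, Submodule.mem_bot] at h1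
      exact h1
    set E : m →ₗ[ZMod q] m :=
      ∑ i ∈ range (c + 1), Ring.inverse (i.factorial : ZMod q) • N ^ i with hE
    have hEA : ∀ w : m, E w = Ad (e x) w := by
      intro w
      apply Subtype.ext
      rw [hAd, hinvv, he, (hADE (ZMod q) S c A (x : S) (hmF _ x.2) (w : S) (hmF _ w.2)).1, hE,
        LinearMap.sum_apply, Submodule.coe_sum]
      refine Finset.sum_congr rfl fun i _ => ?_
      rw [LinearMap.smul_apply, Submodule.coe_smul, hNi]
    obtain ⟨_, h2, _⟩ := hNIL (ZMod q) m c A.inv N E hNc hE ⊤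
    obtain ⟨h3, h4⟩ := h2 (fun w _ => Submodule.mem_top)
    ext z
    simp only [Set.mem_range]
    constructor
    · rintro ⟨w, rfl⟩
      obtain ⟨v, _, hv⟩ := h3 w Submodule.mem_top
      refine ⟨v, ?_⟩
      rw [← hEA]
      exact hv.symm
    · rintro ⟨w, rfl⟩
      obtain ⟨v, _, hv⟩ := h4 w Submodule.mem_top
      refine ⟨v, ?_⟩
      rw [← hEA]
      exact hv.symm
  have hnil : ∃ n, lcs m n = ⊥ := by
    have h1 : ∀ n, ∀ w ∈ lcs m n, (w : S) ∈ A.F (n + 1) := by
      intro n
      induction n with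
      | zero => intro w _; exact hmF _ w.2
      | succ n ih =>
        intro w hw
        have h2 : lcs m (n + 1) ≤ (A.F (n + 1 + 1)).toAddSubgroup.comap m.subtype.toAddMonoidHom := by
          refine (AddSubgroup.closure_le _).mpr ?_
          rintro _ ⟨a, b, hb, rfl⟩
          change cm (a : S) (b : S) ∈ A.F (n + 1 + 1)
          have h3 := cm_mem A (hmF _ a.2) (ih b hb)
          rwa [add_comm 1 (n + 1)] at h3
        exact h2 hw
    refine ⟨c, ?_⟩
    rw [eq_bot_iff]
    intro w hw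
    have h2 := h1 c w hw
    rw [A.bot, Submodule.mem_bot] at h2
    rw [AddSubgroup.mem_bot]
    exact Subtype.ext h2
  let L : LExp H m :=
    { e := e
      Ad := Ad
      e_zero := by
        apply eext
        rw [he]
        exact hexz
      e_neg := he_neg
      e_Ad := by
        intro g x
        apply eext
        rw [he, hAd, hconje g x (hmF _ x.2), ← he]
        rfl
      mul := hmul
      range_ad := hrange
      nil := hnil }
  refine ⟨m, iL, inferInstance, L, ?_⟩
  intro B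
  set N : Subgroup Sˣ := B.map H.subtype with hN
  have hNH : N ≤ H := by
    intro u hu
    obtain ⟨h, _, rfl⟩ := hu
    exact h.2
  obtain ⟨mN, hmN, hcmN⟩ := hCLO q c S A N (fun h hh => hH h (hNH hh))
  have hb : ∀ x : m, (x : S) ∈ lg A N ↔ e x ∈ B := by
    intro x
    constructor
    · rintro ⟨_, u, hu, hue⟩
      obtain ⟨h, hh, rfl⟩ := hu
      have h1 : h = e x := by
        apply eext
        rw [he]
        exact hue
      rw [← h1]
      exact hh
    · intro h
      refine ⟨hmF _ x.2, ((e x : H) : Sˣ), ⟨e x, h, rfl⟩, he x⟩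
  let b : AddSubgroup m := mN.toAddSubgroup.comap m.subtype.toAddMonoidHom
  have hbm : ∀ x : m, x ∈ b ↔ (x : S) ∈ lg A N := fun x => hmN (x : S)
  refine ⟨b, ?_, ?_, ?_⟩
  · intro x hx y hy
    exact hcmN (x : S) hx (y : S) hy
  · intro x
    rw [hbm]
    exact hb x
  · intro hBn
    obtain ⟨h1, h2⟩ := hIDE q c S A H N hH hNH (by
      intro h hh n hn
      obtain ⟨n', hn', rfl⟩ := hn
      exact ⟨⟨h, hh⟩ * n' * ⟨h, hh⟩⁻¹, hBn.conj_mem n' hn' ⟨h, hh⟩, rfl⟩)
    constructor
    · intro x y hy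
      rw [hbm] at hy ⊢
      exact h1 (x : S) ((hmem _).mp x.2) (y : S) hy
    · intro x y
      rw [hbm]
      have h3 := h2 (x : S) ((hmem _).mp x.2) (y : S) ((hmem _).mp y.2)
      have h4 : ((x - y : m) : S) = (x : S) - y := rfl
      rw [h4, h3]
      change _ ↔ (e y)⁻¹ * e x ∈ B
      constructor
      · rintro ⟨n, hn, hne⟩
        obtain ⟨n', hn', rfl⟩ := hn
        have h5 : (e y)⁻¹ * e x = n' := by
          rw [inv_mul_eq_iff_eq_mul]
          apply eext
          rw [he, hne, ← he]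
          rfl
        rw [h5]
        exact hn'
      · intro h
        refine ⟨(((e y)⁻¹ * e x : H) : Sˣ), ⟨_, h, rfl⟩, ?_⟩
        rw [← he, ← he]
        have h5 : e x = e y * ((e y)⁻¹ * e x) := by group
        have h6 : (((e y * ((e y)⁻¹ * e x) : H) : Sˣ) : S) =
          (((e y : H) : Sˣ) : S) * ((((e y)⁻¹ * e x : H) : Sˣ) : S) := rfl
        rw [← h6, ← h5]

end H68.LZ
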