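import Pool.Agent.H70.LZ.Stm

/-!
# KL, block (A), part QUB: Lie structures pass to quotients
-/

set_option autoImplicit false

open Finset
open scoped commutatorElement

namespace H68.LZ

open H2.KL H70.LZ

section core

variable {H K l k' : Type} [Group H] [Group K] [LieRing l] [LieRing k'] (θ : H →* K)
  (π : l →+ k') (L : LExp H l)

/-- the data of a quotient -/
structure Quo : Prop where
  sur : Function.Surjective θ
  surπ : Function.Surjective π
  lie : ∀ x y, π ⁅x, y⁆ = ⁅π x, π y⁆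
  iff : ∀ x y, π x = π y ↔ θ (L.e x) = θ (L.e y)

variable {θ π L}

theorem Quo.bij (Q : Quo θ π L) :
    Function.Bijective fun z : k' => θ (L.e (Function.surjInv Q.surπ z)) := by
  constructor
  · intro z z' h
    have h1 := (Q.iff _ _).mpr h
    rwa [Function.surjInv_eq Q.surπ, Function.surjInv_eq Q.surπ] at h1
  · intro g
    obtain ⟨h, rfl⟩ := Q.sur g
    refine ⟨π (L.e.symm h), ?_⟩
    have h1 : π (Function.surjInv Q.surπ (π (L.e.symm h))) = π (L.e.symm h) :=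
      Function.surjInv_eq _ _
    have h2 := (Q.iff _ _).mp h1
    rw [Equiv.apply_symm_apply] at h2
    exact h2

/-- the bijection -/
noncomputable def Quo.e (Q : Quo θ π L) : k' ≃ K := Equiv.ofBijective _ Q.bij

theorem Quo.e_π (Q : Quo θ π L) (x : l) : Q.e (π x) = θ (L.e x) := by
  change θ (L.e (Function.surjInv Q.surπ (π x))) = _
  exact (Q.iff _ _).mp (Function.surjInv_eq _ _)

theorem Quo.e_symm (Q : Quo θ π L) (h : H) : Q.e.symm (θ h) = π (L.e.symm h) := by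
  rw [Equiv.symm_apply_eq, Q.e_π, Equiv.apply_symm_apply]

theorem Quo.Ad_congr (Q : Quo θ π L) {h h' : H} (hh : θ h = θ h') {x x' : l} (hx : π x = π x') :
    π (L.Ad h x) = π (L.Ad h' x') := by
  rw [Q.iff, L.e_Ad, L.e_Ad, map_mul, map_mul, map_mul, map_mul, map_inv, map_inv, hh,
    (Q.iff _ _).mp hx]

/-- the adjoint action -/
noncomputable def Quo.Ad (Q : Quo θ π L) (g : K) : k' →+ k' where
  toFun z := π (L.Ad (Function.surjInv Q.sur g) (Function.surjInv Q.surπ z))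
  map_zero' := by
    have h1 : π (Function.surjInv Q.surπ (0 : k')) = π 0 := by
      rw [Function.surjInv_eq Q.surπ, map_zero]
    rw [Q.Ad_congr rfl h1, map_zero, map_zero]
  map_add' z z' := by
    have h1 : π (Function.surjInv Q.surπ (z + z')) =
        π (Function.surjInv Q.surπ z + Function.surjInv Q.surπ z') := by
      rw [Function.surjInv_eq Q.surπ, map_add, Function.surjInv_eq Q.surπ, Function.surjInv_eq Q.surπ]
    rw [Q.Ad_congr rfl h1, map_add, map_add]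

theorem Quo.Ad_π (Q : Quo θ π L) (h : H) (x : l) : Q.Ad (θ h) (π x) = π (L.Ad h x) := by
  change π (L.Ad (Function.surjInv Q.sur (θ h)) (Function.surjInv Q.surπ (π x))) = _
  exact Q.Ad_congr (Function.surjInv_eq _ _) (Function.surjInv_eq _ _)

theorem Quo.sub_comap (Q : Quo θ π L) {h : AddSubgroup k'} (hh : IsSub h) : IsSub (h.comap π) := by
  intro x hx y hy
  rw [AddSubgroup.mem_comap] at hx hy ⊢
  rw [Q.lie]
  exact hh _ hx _ hy

theorem Quo.der_comap (Q : Quo θ π L) (h : AddSubgroup k') {w : l} (hw : w ∈ der (h.comap π)) :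
    π w ∈ der h := by
  have h1 : der (h.comap π) ≤ (der h).comap π := by
    refine (AddSubgroup.closure_le _).mpr ?_
    rintro _ ⟨a, ha, b, hb, rfl⟩
    rw [SetLike.mem_coe, AddSubgroup.mem_comap]
    rw [Q.lie]
    exact AddSubgroup.subset_closure ⟨π a, ha, π b, hb, rfl⟩
  exact h1 hw

theorem Quo.lcs_le (Q : Quo θ π L) (n : ℕ) : lcs k' n ≤ (lcs l n).map π := by
  induction n with
  | zero =>
    intro z _
    obtain ⟨x, rfl⟩ := Q.surπ z
    exact ⟨x, AddSubgroup.mem_top x, rfl⟩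
  | succ n ih =>
    change AddSubgroup.closure {w | ∃ a : k', ∃ b ∈ lcs k' n, w = ⁅a, b⁆} ≤ _
    rw [AddSubgroup.closure_le]
    rintro _ ⟨a, b, hb, rfl⟩
    obtain ⟨y, hy, rfl⟩ := ih hb
    obtain ⟨x, rfl⟩ := Q.surπ a
    exact ⟨⁅x, y⁆, AddSubgroup.subset_closure ⟨x, y, hy, rfl⟩, Q.lie x y⟩

/-- the Lie structure on the quotient -/
noncomputable def Quo.LL (Q : Quo θ π L) : LExp K k' where
  e := Q.e
  Ad := Q.Ad
  e_zero := by rw [← map_zero π, Q.e_π, L.e_zero, map_one]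
  e_neg := by
    intro z
    obtain ⟨x, rfl⟩ := Q.surπ z
    rw [← map_neg, Q.e_π, Q.e_π, L.e_neg, map_inv]
  e_Ad := by
    intro g z
    obtain ⟨x, rfl⟩ := Q.surπ z
    obtain ⟨h, rfl⟩ := Q.sur g
    rw [Q.Ad_π, Q.e_π, Q.e_π, L.e_Ad, map_mul, map_mul, map_inv]
  mul := by
    intro h hh x' hx' y' hy'
    obtain ⟨x, rfl⟩ := Q.surπ x'
    obtain ⟨y, rfl⟩ := Q.surπ y'
    have h1 := L.mul (h.comap π) (Q.sub_comap hh) x hx' y hy'
    have h2 := Q.der_comap h h1
    rw [map_sub, map_sub, ← Q.e_symm, map_mul] at h2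
    rw [Q.e_π, Q.e_π]
    exact h2
  range_ad := by
    intro x'
    obtain ⟨x, rfl⟩ := Q.surπ x'
    have h1 := L.range_ad x
    ext z
    simp only [Set.mem_range]
    constructor
    · rintro ⟨w', rfl⟩
      obtain ⟨w, rfl⟩ := Q.surπ w'
      have h2 : ⁅x, w⁆ ∈ Set.range (fun w => L.Ad (L.e x) w - w) := by
        rw [← h1]; exact ⟨w, rfl⟩
      obtain ⟨v, hv⟩ := h2
      refine ⟨π v, ?_⟩
      rw [Q.e_π, Q.Ad_π, ← map_sub, ← Q.lie]
      exact congrArg π hv
    · rintro ⟨w', rfl⟩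
      obtain ⟨w, rfl⟩ := Q.surπ w'
      have h2 : L.Ad (L.e x) w - w ∈ Set.range (fun w => ⁅x, w⁆) := by
        rw [h1]; exact ⟨w, rfl⟩
      obtain ⟨v, hv⟩ := h2
      refine ⟨π v, ?_⟩
      rw [Q.e_π, Q.Ad_π, ← map_sub, ← Q.lie]
      exact congrArg π hv
  nil := by
    obtain ⟨n, hn⟩ := L.nil
    refine ⟨n, ?_⟩
    have h1 := Q.lcs_le n
    rw [hn, AddSubgroup.map_bot] at h1
    exact le_bot_iff.mp h1

theorem Quo.good (Q : Quo θ π L) (hL : GoodL L) : GoodL Q.LL := by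
  intro B'
  obtain ⟨b, hb1, hb2, hb3⟩ := hL (B'.comap θ)
  have hmem : ∀ x : l, π x ∈ b.map π ↔ θ (L.e x) ∈ B' := by
    intro x
    constructor
    · rintro ⟨y, hy, hyx⟩
      have h1 := (hb2 y).mp hy
      rw [← (Q.iff _ _).mp hyx]
      exact h1
    · intro h
      exact ⟨x, (hb2 x).mpr h, rfl⟩
  refine ⟨b.map π, ?_, ?_, ?_⟩
  · rintro _ ⟨x, hx, rfl⟩ _ ⟨y, hy, rfl⟩
    exact ⟨⁅x, y⁆, hb1 x hx y hy, Q.lie x y⟩
  · intro z
    obtain ⟨x, rfl⟩ := Q.surπ z
    change _ ↔ Q.e (π x) ∈ B'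
    rw [Q.e_π]
    exact hmem x
  · intro hN
    have hN' : (B'.comap θ).Normal := hN.comap θ
    obtain ⟨h1, h2⟩ := hb3 hN'
    constructor
    · rintro z _ ⟨y, hy, rfl⟩
      obtain ⟨x, rfl⟩ := Q.surπ z
      exact ⟨⁅x, y⁆, h1 x y hy, Q.lie x y⟩
    · intro x' y'
      obtain ⟨x, rfl⟩ := Q.surπ x'
      obtain ⟨y, rfl⟩ := Q.surπ y'
      change _ ↔ (Q.e (π y))⁻¹ * Q.e (π x) ∈ B'
      rw [Q.e_π, Q.e_π, ← map_sub, hmem, ← map_inv, ← map_mul]
      have h3 := h2 x y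
      rw [hb2] at h3
      exact h3

end core

theorem t_QUB : S_QUB := by
  intro H K _ _ θ hθ hH
  obtain ⟨l, iL, iF, L, hL⟩ := hH
  obtain ⟨b, _, _, hb3⟩ := hL θ.ker
  obtain ⟨hid, hco⟩ := hb3 inferInstance
  let I : LieIdeal ℤ l :=
    { carrier := b
      add_mem' := fun hx hy => add_mem hx hy
      zero_mem' := zero_mem b
      smul_mem' := fun n x hx => zsmul_mem hx n
      lie_mem := fun {x m} hm => hid x m hm }
  have hmemI : ∀ x, x ∈ I ↔ x ∈ b := fun x => Iff.rfl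
  let π : l →+ (l ⧸ I) := (LieSubmodule.Quotient.mk' I : l →ₗ⁅ℤ,l⁆ l ⧸ I).toLinearMap.toAddMonoidHom
  have hπ : ∀ x, π x = LieSubmodule.Quotient.mk x := fun x => rfl
  have hsurπ : Function.Surjective π := LieSubmodule.Quotient.surjective_mk' I
  have Q : Quo θ π L := by
    refine ⟨hθ, hsurπ, fun x y => rfl, ?_⟩
    intro x y
    have h1 : π x = π y ↔ x - y ∈ b := by
      rw [← sub_eq_zero, ← map_sub, hπ, LieSubmodule.Quotient.mk_eq_zero', hmemI]
    rw [h1, hco, MonoidHom.mem_ker, map_mul, map_inv, inv_mul_eq_one]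
    exact eq_comm
  have hfin : Finite (l ⧸ I) := Finite.of_surjective π hsurπ
  exact ⟨l ⧸ I, inferInstance, hfin, Q.LL, Q.good hL⟩

end H68.LZ
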